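import Pool.Agent.V11225.MV.Time

/-!
# Shortest Path Most Vital Edges is `W[1]`-hard in the number of deleted edges
-/

namespace Pool.Agent.V11225.MV

open Finset Pool.Agent.NPC Pool.Agent.H633R2

theorem clq (x : Inp) (hk : x.2 ≤ x.1.length) : HasClique x ↔
    ∃ u : ℕ → ℕ, (∀ i < gk x, u i < gn x) ∧
      ∀ i < gk x, ∀ j < gk x, i < j → gAdj x (u i) (u j) = true := by
  have h1 : gk x = x.2 := min_eq_left hk
  rw [Pool.Agent.H257R2.OS.clique_iff, h1]
  refine exists_congr fun u => and_congr_right fun _ => ?_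
  constructor
  · intro h i hi j hj hij
    exact h i hi j hj hij.ne
  · intro h i hi j hj hij
    rcases Nat.lt_or_gt_of_ne hij with h2 | h2
    · exact h i hi j hj h2
    · have h3 := h j hj i hi h2
      unfold Pool.Agent.H257R2.OS.adjM
      unfold gAdj at h3
      simp only [ne_eq, Bool.and_eq_true, decide_eq_true_eq, Bool.or_eq_true] at h3 ⊢
      exact ⟨fun h => h3.1 h.symm, h3.2.symm⟩

/-- the trivial instance without solutions -/
theorem no_inst : ¬ SPMVE ([[0, 1], [1, 0]], (0, 1), (0, 2)) := by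
  rintro ⟨hs, ht, S, hS, hc, h⟩
  have h0 : S = ∅ := Finset.card_eq_zero.1 (Nat.le_zero.1 hc)
  subst h0
  have hadj : ((gr [[0, 1], [1, 0]]).deleteEdges
      ((∅ : Finset (Sym2 (Fin [[0, 1], [1, 0]].length))) : Set _)).Adj ⟨0, hs⟩ ⟨1, ht⟩ := by
    rw [SimpleGraph.deleteEdges_adj]
    refine ⟨⟨?_, ?_⟩, ?_⟩
    · intro h
      simp at h
    · change 0 < wt [[0, 1], [1, 0]] 0 1
      decide
    · simp
  have h1 := h (SimpleGraph.Walk.cons hadj SimpleGraph.Walk.nil) (by
    rw [SimpleGraph.Walk.cons_isPath_iff]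
    refine ⟨SimpleGraph.Walk.IsPath.nil, ?_⟩
    rw [SimpleGraph.Walk.support_nil, List.mem_singleton]
    intro h
    simp at h)
  rw [plen_cons, plen_nil] at h1
  have h2 : wt [[0, 1], [1, 0]] 0 1 = 1 := by decide
  change 2 ≤ wt [[0, 1], [1, 0]] 0 1 + 0 at h1
  omega

theorem red_iff (x : Inp) : HasClique x ↔ SPMVE (red x) := by
  unfold red
  split_ifs with h
  · rw [clq x h, ← main (gn x) (gk x) (gAdj x) (gAdj_comm x), gM_eq]
    rfl
  · constructor
    · rintro ⟨S, hS⟩
      exfalso
      have h2 := hS.card_eq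
      have h3 := S.card_le_univ
      rw [Fintype.card_fin] at h3
      omega
    · intro h1
      exact absurd h1 no_inst

theorem red_budget (x : Inp) : (red x).2.2.1 ≤ 2 * (x.2 * x.2) := by
  unfold red
  split_ifs with h
  · have h1 : gk x ≤ x.2 := min_le_left _ _
    exact Nat.mul_le_mul_left _ (Nat.mul_le_mul h1 h1)
  · exact Nat.zero_le _

/-! ### The lengths are small -/

theorem length_crs (n κ : ℕ) (hκ : 0 < κ) : n * n + 3 ≤ (crs n κ).length := by
  have h1 : ((0, 0, 0, 0) : Cr) :: (1, 0, 0, 0) ::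
      (List.range (n * n + 1)).map (fun m => ((2, 0, 0, m) : Cr)) ⊆ crs n κ := by
    intro x hx
    simp only [List.mem_cons, List.mem_map, List.mem_range] at hx
    rcases hx with rfl | rfl | ⟨m, hm, rfl⟩
    · exact mem_crs.2 (Or.inl rfl)
    · exact mem_crs.2 (Or.inr (Or.inl rfl))
    · exact mem_crs.2 (Or.inr (Or.inr ⟨2, 0, 0, m, Or.inl rfl, hκ, hκ, by omega, rfl⟩))
  have h2 : (((0, 0, 0, 0) : Cr) :: (1, 0, 0, 0) ::
      (List.range (n * n + 1)).map (fun m => ((2, 0, 0, m) : Cr))).Nodup := by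
    refine List.nodup_cons.2 ⟨by simp, List.nodup_cons.2 ⟨by simp, ?_⟩⟩
    exact List.nodup_range.map fun x y hxy => by simpa using hxy
  have h3 := (List.subperm_of_subset h2 h1).length_le
  simp only [List.length_cons, List.length_map, List.length_range] at h3
  omega

theorem hE_le (n κ : ℕ) (adj : ℕ → ℕ → Bool) {a b : Cr} (ha : a ∈ crs n κ) (hb : b ∈ crs n κ) :
    (core n κ adj).hard a b ≤ 4 * (n * n) + 12 := by
  simp only [core]
  unfold hE
  split_ifs with h1 h2 h3 h4 h5 h6 h7 h8 h9 h10 h11 h12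
  all_goals try omega
  -- the weight of an item
  rcases mem_crs.1 ha with rfl | rfl | ⟨k, i, j, m, hk, hi, hj, hm, rfl⟩
  · exact absurd rfl h1
  · simp at *
  · rcases mem_crs.1 hb with rfl | rfl | ⟨k', i', j', m', hk', hi', hj', hm', rfl⟩
    · simp at *
    · simp at *
    · simp only at *
      have hm2 : m < n * n := by omega
      have hv := val_lt (i := i) (j := j) hm2
      unfold wgt
      split_ifs <;> omega

theorem hE_zero (n : ℕ) (adj : ℕ → ℕ → Bool) {a b : Cr} (ha : a ∈ crs n 0) (hb : b ∈ crs n 0) :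
    (core n 0 adj).hard a b = 0 := by
  have h0 : ∀ {x : Cr}, x ∈ crs n 0 → x = (0, 0, 0, 0) ∨ x = (1, 0, 0, 0) := by
    intro x hx
    rcases mem_crs.1 hx with h | h | ⟨k, i, j, m, hk, hi, hj, hm, rfl⟩
    · exact Or.inl h
    · exact Or.inr h
    · omega
  rcases h0 ha with rfl | rfl <;> rcases h0 hb with rfl | rfl <;> simp [core, hE]

theorem hard_le (n κ : ℕ) (adj : ℕ → ℕ → Bool) {a b : Cr} (ha : a ∈ crs n κ) (hb : b ∈ crs n κ) :
    (core n κ adj).hard a b ≤ 4 * (crs n κ).length := by
  rcases Nat.eq_zero_or_pos κ with rfl | h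
  · rw [hE_zero n adj ha hb]
    exact Nat.zero_le _
  · have h1 := hE_le n κ adj ha hb
    have h2 := length_crs n κ h
    omega

theorem soft_le (n κ : ℕ) (adj : ℕ → ℕ → Bool) (a b : Cr) :
    (core n κ adj).soft a b ≤ 2 := by
  simp only [core]
  unfold sE
  split_ifs <;> omega

theorem len_le (n κ : ℕ) (adj : ℕ → ℕ → Bool) {u v : Tg Cr} (hu : u ∈ (core n κ adj).vs)
    (hv : v ∈ (core n κ adj).vs) :
    (core n κ adj).len u v ≤ 4 * (core n κ adj).vs.length := by
  have h1 : (crs n κ).length ≤ (core n κ adj).vs.length := by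
    unfold Core.vs
    rw [List.length_append, List.length_map]
    exact Nat.le_add_right _ _
  have h2 : 2 ≤ (crs n κ).length := by
    unfold crs
    simp only [List.length_cons]
    omega
  have hcm : ∀ a m, a ∈ crs n κ → Sum.inr m ∈ (core n κ adj).vs →
      (core n κ adj).cm a m ≤ 4 * (core n κ adj).vs.length := by
    rintro a ⟨b, d, e⟩ _ hm
    obtain ⟨hb, hd, _⟩ := (Core.mem_vs_inr _).1 hm
    have h3 := hard_le n κ adj hb hd
    unfold Core.cm
    simp only
    split_ifs <;> omega
  rcases u with a | m <;> rcases v with b | m'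
  · have h3 := soft_le n κ adj a b
    have h4 := soft_le n κ adj b a
    simp only [Core.len]
    omega
  · exact hcm a m' ((Core.mem_vs_inl _).1 hu) hv
  · exact hcm b m ((Core.mem_vs_inl _).1 hv) hu
  · exact Nat.zero_le _

/-- all lengths are at most four times the number of vertices -/
def Small (T : List (List ℕ)) : Prop := ∀ r ∈ T, ∀ w ∈ r, w ≤ 4 * T.length

theorem red_small (x : Inp) : Small (red x).1 := by
  unfold red
  split_ifs with h
  · rw [gM_eq]
    intro r hr w hw
    simp only at hr ⊢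
    rw [Core.length_mat]
    unfold Core.mat at hr
    obtain ⟨u, hu, rfl⟩ := List.mem_map.1 hr
    obtain ⟨v, hv, rfl⟩ := List.mem_map.1 hw
    exact len_le _ _ _ hu hv
  · intro r hr w hw
    simp only [List.mem_cons, List.not_mem_nil, or_false] at hr
    rcases hr with rfl | rfl
    · simp only [List.mem_cons, List.not_mem_nil, or_false] at hw
      rcases hw with rfl | rfl <;> simp
    · simp only [List.mem_cons, List.not_mem_nil, or_false] at hw
      rcases hw with rfl | rfl <;> simp

/-- Shortest Path Most Vital Edges is `W[1]`-hard with respect to the number of deleted edges,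
even for small lengths. -/
theorem w1Hard_small : W1Hard (fun I : List (List ℕ) × (ℕ × ℕ) × (ℕ × ℕ) => I.2.2.1)
    (fun I => Small I.1 ∧ SPMVE I) :=
  W1Hard.of_clique ⟨red, fun k => 2 * (k * k), FptTime.of_poly p_red,
    mul_computable (Computable.const 2) (mul_computable Computable.id Computable.id),
    fun a => ⟨(red_iff a).trans ⟨fun h => ⟨red_small a, h⟩, fun h => h.2⟩, red_budget a⟩⟩

theorem w1Hard : W1Hard (fun I : List (List ℕ) × (ℕ × ℕ) × (ℕ × ℕ) => I.2.2.1) SPMVE :=
  W1Hard.of_clique ⟨red, fun k => 2 * (k * k), FptTime.of_poly p_red,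
    mul_computable (Computable.const 2) (mul_computable Computable.id Computable.id),
    fun a => ⟨red_iff a, red_budget a⟩⟩

end Pool.Agent.V11225.MV
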