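import Pool.Agent.V11225.MV.Sound
import Pool.Agent.H257R2.OS.G1

/-!
# Shortest Path Most Vital Edges is `W[1]`-hard in the number of deleted edges
-/

namespace Pool.Agent.V11225.MV

open Finset Pool.Agent.NPC Pool.Agent.H633R2

/-- inputs -/
abbrev Inp := List (List Bool) × ℕ

def gn (x : Inp) : ℕ := x.1.length
def gk (x : Inp) : ℕ := min x.2 x.1.length

theorem u_gn : UPoly gn := UPoly.length (Poly.fst Poly.id)
theorem u_gk : UPoly gk := UPoly.of_le (n := gn) (by unfold gk; fun_prop) u_gn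
  (fun _ => min_le_right _ _)
theorem u_nn : UPoly (fun x => gn x * gn x + 1) :=
  UPoly.add (UPoly.mul u_gn u_gn) (UPoly.const 1)
theorem u_kk : UPoly (fun x => 2 * (gk x * gk x) + 1) :=
  UPoly.add (UPoly.mul (UPoly.const 2) (UPoly.mul u_gk u_gk)) (UPoly.const 1)

variable {α : Type} [TEnc α]

theorem p_gn {f : α → Inp} (hf : Poly f) : Poly (fun a => gn (f a)) := u_gn.toPoly.comp hf
theorem p_gk {f : α → Inp} (hf : Poly f) : Poly (fun a => gk (f a)) := u_gk.toPoly.comp hf

attribute [local fun_prop] p_gn p_gk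

theorem r_n {f : α → Inp} (hf : Poly f) : Poly (fun a => List.range (gn (f a) * gn (f a) + 1)) :=
  u_nn.range.comp hf
theorem r_k {f : α → Inp} (hf : Poly f) : Poly (fun a => List.range (gk (f a))) :=
  u_gk.range.comp hf
theorem r_kk {f : α → Inp} (hf : Poly f) :
    Poly (fun a => List.range (2 * (gk (f a) * gk (f a)) + 1)) := u_kk.range.comp hf

attribute [local fun_prop] r_n r_k r_kk

def gAdj (x : Inp) (i j : ℕ) : Bool := decide (i ≠ j) && (entry x.1 i j || entry x.1 j i)

theorem gAdj_comm (x : Inp) (i j : ℕ) : gAdj x i j = gAdj x j i := by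
  unfold gAdj
  rw [Bool.or_comm (entry x.1 i j), decide_eq_decide.2 (ne_comm (a := i) (b := j))]

theorem p_entry' {f : α → List (List Bool)} {i j : α → ℕ} (hf : Poly f) (hi : Poly i)
    (hj : Poly j) : Poly (fun a => entry (f a) (i a) (j a)) :=
  Pool.Agent.H257R2.LJW.entry_poly hf hi hj

attribute [local fun_prop] p_entry'

theorem p_adj {f : α → Inp} {i j : α → ℕ} (hf : Poly f) (hi : Poly i) (hj : Poly j) :
    Poly (fun a => gAdj (f a) (i a) (j a)) := by
  unfold gAdj; fun_prop

attribute [local fun_prop] p_adj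

theorem p_allow {f : α → Inp} {i j q : α → ℕ} (hf : Poly f) (hi : Poly i) (hj : Poly j)
    (hq : Poly q) : Poly (fun a => allow (gn (f a)) (gAdj (f a)) (i a) (j a) (q a)) := by
  unfold allow; fun_prop

theorem p_val {n i j q : α → ℕ} (hn : Poly n) (hi : Poly i) (hj : Poly j)
    (hq : Poly q) : Poly (fun a => val (n a) (i a) (j a) (q a)) := by
  unfold val; fun_prop

attribute [local fun_prop] p_allow p_val

theorem p_wgt {n k i j q : α → ℕ} (hn : Poly n) (hk : Poly k) (hi : Poly i) (hj : Poly j)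
    (hq : Poly q) : Poly (fun a => wgt (n a) (k a) (i a) (j a) (q a)) := by
  unfold wgt; fun_prop

attribute [local fun_prop] p_wgt

theorem p_hE {f : α → Inp} {ka ia ja ma kb ib jb mb : α → ℕ} (hf : Poly f)
    (h1 : Poly ka) (h2 : Poly ia) (h3 : Poly ja) (h4 : Poly ma)
    (h5 : Poly kb) (h6 : Poly ib) (h7 : Poly jb) (h8 : Poly mb) :
    Poly (fun a => hE (gn (f a)) (gAdj (f a)) (ka a) (ia a) (ja a) (ma a) (kb a) (ib a) (jb a)
      (mb a)) := by
  unfold hE; fun_prop

theorem p_sE {f : α → Inp} {ka ia ja ma kb ib jb mb : α → ℕ} (hf : Poly f)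
    (h1 : Poly ka) (h2 : Poly ia) (h3 : Poly ja) (h4 : Poly ma)
    (h5 : Poly kb) (h6 : Poly ib) (h7 : Poly jb) (h8 : Poly mb) :
    Poly (fun a => sE (gn (f a)) (gAdj (f a)) (ka a) (ia a) (ja a) (ma a) (kb a) (ib a) (jb a)
      (mb a)) := by
  unfold sE; fun_prop

attribute [local fun_prop] p_hE p_sE

/-- length of a hard edge -/
def gh (x : Inp) (a b : Cr) : ℕ :=
  hE (gn x) (gAdj x) a.1 a.2.1 a.2.2.1 a.2.2.2 b.1 b.2.1 b.2.2.1 b.2.2.2
def gs (x : Inp) (a b : Cr) : ℕ :=
  sE (gn x) (gAdj x) a.1 a.2.1 a.2.2.1 a.2.2.2 b.1 b.2.1 b.2.2.1 b.2.2.2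

theorem p_gh {f : α → Inp} {u v : α → Cr} (hf : Poly f) (hu : Poly u) (hv : Poly v) :
    Poly (fun a => gh (f a) (u a) (v a)) := by
  unfold gh; fun_prop
theorem p_gs {f : α → Inp} {u v : α → Cr} (hf : Poly f) (hu : Poly u) (hv : Poly v) :
    Poly (fun a => gs (f a) (u a) (v a)) := by
  unfold gs; fun_prop

attribute [local fun_prop] p_gh p_gs

def gcm (x : Inp) (a : Cr) (m : Cr × Cr × ℕ) : ℕ :=
  if gh x m.1 m.2.1 = 0 then 0 else if a = m.1 then 1 else
    if a = m.2.1 then gh x m.1 m.2.1 - 1 else 0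

theorem p_gcm {f : α → Inp} {u : α → Cr} {m : α → Cr × Cr × ℕ} (hf : Poly f) (hu : Poly u)
    (hm : Poly m) : Poly (fun a => gcm (f a) (u a) (m a)) := by
  unfold gcm; fun_prop

attribute [local fun_prop] p_gcm

def glen (x : Inp) (u v : Tg Cr) : ℕ :=
  Sum.elim (fun a => Sum.elim (fun b => gs x a b + gs x b a) (fun m => gcm x a m) v)
    (fun m => Sum.elim (fun b => gcm x b m) (fun _ => 0) v) u

theorem p_glen {f : α → Inp} {u v : α → Tg Cr} (hf : Poly f) (hu : Poly u)
    (hv : Poly v) : Poly (fun a => glen (f a) (u a) (v a)) := by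
  unfold glen; fun_prop

attribute [local fun_prop] p_glen

/-- the core vertices -/
def gcs (x : Inp) : List Cr :=
  (0, 0, 0, 0) :: (1, 0, 0, 0) :: (List.range 2).flatMap fun k =>
    (List.range (gk x)).flatMap fun i => (List.range (gk x)).flatMap fun j =>
      (List.range (gn x * gn x + 1)).map fun m => (k + 2, i, j, m)

theorem p_gcs : Poly gcs := by
  unfold gcs; fun_prop

attribute [local fun_prop] p_gcs

theorem p_gcs' {f : α → Inp} (hf : Poly f) : Poly (fun a => gcs (f a)) := p_gcs.comp hf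

attribute [local fun_prop] p_gcs'

/-- the vertices -/
def gvs (x : Inp) : List (Tg Cr) :=
  ((gcs x).map Sum.inl) ++ ((gcs x).flatMap fun a => (gcs x).flatMap fun b =>
    (List.range (2 * (gk x * gk x) + 1)).map fun e => Sum.inr (a, b, e))

theorem p_gvs : Poly gvs := by
  unfold gvs; fun_prop

theorem p_gvs' {f : α → Inp} (hf : Poly f) : Poly (fun a => gvs (f a)) := p_gvs.comp hf

attribute [local fun_prop] p_gvs'

/-- the matrix of the lengths -/
def gM (x : Inp) : List (List ℕ) := (gvs x).map fun u => (gvs x).map fun v => glen x u v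

theorem p_gM : Poly gM := by
  unfold gM; fun_prop

attribute [local fun_prop] p_gM

theorem gM_eq (x : Inp) : gM x = (core (gn x) (gk x) (gAdj x)).mat := by
  unfold gM Core.mat
  have h1 : gvs x = (core (gn x) (gk x) (gAdj x)).vs := rfl
  rw [h1]
  refine List.map_congr_left fun u _ => List.map_congr_left fun v _ => ?_
  rcases u with a | m <;> rcases v with b | m' <;> rfl

/-- the reduction -/
def red (x : Inp) : List (List ℕ) × (ℕ × ℕ) × (ℕ × ℕ) :=
  if x.2 ≤ x.1.length then (gM x, (0, 1), (2 * (gk x * gk x), 7 * (gn x * gn x) + 22))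
  else ([[0, 1], [1, 0]], (0, 1), (0, 2))

theorem p_red : Poly red := by
  unfold red; fun_prop

end Pool.Agent.V11225.MV
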