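import Pool.Agent.V11225.MV.Defs

/-!
# Graphs with edges which cannot be deleted
-/

namespace Pool.Agent.V11225.MV

open Finset

variable {τ : Type} [DecidableEq τ]

/-- names of the vertices: core vertices and middle vertices of the copies of hard edges -/
abbrev Tg (τ : Type) := τ ⊕ (τ × τ × ℕ)

/-- the core data: list of vertices, lengths of the hard edges and of the soft edges, budget -/
structure Core (τ : Type) where
  cs : List τ
  hard : τ → τ → ℕ
  soft : τ → τ → ℕ
  K : ℕ

namespace Core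

variable (c : Core τ)

/-- the vertices -/
def vs : List (Tg τ) :=
  (c.cs.map Sum.inl) ++ (c.cs.flatMap fun a => c.cs.flatMap fun b =>
    (List.range (c.K + 1)).map fun e => Sum.inr (a, b, e))

/-- the length of an edge between a core vertex and a middle vertex -/
def cm (a : τ) (m : τ × τ × ℕ) : ℕ :=
  if c.hard m.1 m.2.1 = 0 then 0 else if a = m.1 then 1 else
    if a = m.2.1 then c.hard m.1 m.2.1 - 1 else 0

/-- the lengths -/
def len : Tg τ → Tg τ → ℕ
  | .inl a, .inl b => c.soft a b + c.soft b a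
  | .inl a, .inr m => c.cm a m
  | .inr m, .inl a => c.cm a m
  | .inr _, .inr _ => 0

/-- the matrix -/
def mat : List (List ℕ) := c.vs.map fun x => c.vs.map fun y => c.len x y

/-- side conditions -/
structure Ok : Prop where
  nodup : c.cs.Nodup
  two : ∀ a b, c.hard a b ≠ 0 → 2 ≤ c.hard a b
  irr : ∀ a, c.hard a a = 0
  irs : ∀ a, c.soft a a = 0
  one : ∀ a b, c.soft a b ≠ 0 → c.soft b a = 0

theorem len_comm (x y : Tg τ) : c.len x y = c.len y x := by
  rcases x with a | m <;> rcases y with b | m'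
  · exact Nat.add_comm _ _
  · rfl
  · rfl
  · rfl

theorem mem_vs_inl {a : τ} : Sum.inl a ∈ c.vs ↔ a ∈ c.cs := by
  unfold vs
  simp

theorem mem_vs_inr {a b : τ} {e : ℕ} :
    Sum.inr (a, b, e) ∈ c.vs ↔ a ∈ c.cs ∧ b ∈ c.cs ∧ e ≤ c.K := by
  unfold vs
  simp only [List.mem_append, List.mem_map, reduceCtorEq, and_false, exists_false, false_or,
    List.mem_flatMap, List.mem_range, Sum.inr.injEq, Prod.mk.injEq]
  constructor
  · rintro ⟨a', ha, b', hb, e', he, rfl, rfl, rfl⟩
    exact ⟨ha, hb, by omega⟩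
  · rintro ⟨ha, hb, he⟩
    exact ⟨a, ha, b, hb, e, by omega, rfl, rfl, rfl⟩

variable {c}

theorem Ok.nodup_vs (h : c.Ok) : c.vs.Nodup := by
  unfold vs
  refine List.nodup_append.2 ⟨h.nodup.map Sum.inl_injective, ?_, ?_⟩
  · rw [List.nodup_flatMap]
    constructor
    · intro a _
      rw [List.nodup_flatMap]
      constructor
      · intro b _
        exact List.nodup_range.map fun x y hxy => by simpa using hxy
      · refine h.nodup.imp ?_
        intro b b' hbb
        rw [Function.onFun, List.disjoint_left]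
        intro x hx hx'
        obtain ⟨e, _, rfl⟩ := List.mem_map.1 hx
        obtain ⟨e', _, he⟩ := List.mem_map.1 hx'
        simp only [Sum.inr.injEq, Prod.mk.injEq] at he
        exact hbb he.2.1.symm
    · refine h.nodup.imp ?_
      intro a a' haa
      rw [Function.onFun, List.disjoint_left]
      intro x hx hx'
      obtain ⟨b, _, h1⟩ := List.mem_flatMap.1 hx
      obtain ⟨e, _, rfl⟩ := List.mem_map.1 h1
      obtain ⟨b', _, h1'⟩ := List.mem_flatMap.1 hx'
      obtain ⟨e', _, he⟩ := List.mem_map.1 h1'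
      simp only [Sum.inr.injEq, Prod.mk.injEq] at he
      exact haa he.1.symm
  · intro x hx y hy hxy
    obtain ⟨a, _, rfl⟩ := List.mem_map.1 hx
    obtain ⟨b, _, h1⟩ := List.mem_flatMap.1 hy
    obtain ⟨d, _, h2⟩ := List.mem_flatMap.1 h1
    obtain ⟨e, _, rfl⟩ := List.mem_map.1 h2
    simp at hxy

theorem length_mat : c.mat.length = c.vs.length := List.length_map ..

/-- the name of a vertex -/
def nm (c : Core τ) (i : Fin c.mat.length) : Tg τ := c.vs[(i : ℕ)]'(by rw [← length_mat]; exact i.2)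

theorem nm_mem (i : Fin c.mat.length) : c.nm i ∈ c.vs := List.getElem_mem _

theorem Ok.nm_inj (h : c.Ok) {i j : Fin c.mat.length} (hij : c.nm i = c.nm j) : i = j :=
  Fin.ext ((List.Nodup.getElem_inj_iff h.nodup_vs).1 hij)

theorem wt_nm (i j : Fin c.mat.length) : wt c.mat i j = c.len (c.nm i) (c.nm j) := by
  unfold wt mat
  have hi : (i : ℕ) < c.vs.length := by rw [← length_mat]; exact i.2
  have hj : (j : ℕ) < c.vs.length := by rw [← length_mat]; exact j.2
  rw [ent_map _ _ hi hj, ent_map _ _ hj hi, c.len_comm c.vs[(j : ℕ)] c.vs[(i : ℕ)], max_self]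
  rfl

theorem exists_idx {x : Tg τ} (hx : x ∈ c.vs) : ∃ i : Fin c.mat.length, c.nm i = x := by
  obtain ⟨i, hi, rfl⟩ := List.mem_iff_getElem.1 hx
  exact ⟨⟨i, by rw [length_mat]; exact hi⟩, rfl⟩

/-! ### Completeness -/

/-- potentials of the middle vertices -/
def pot (π : τ → ℤ) : Tg τ → ℤ
  | .inl a => π a
  | .inr (a, b, _) => π a + max (-1) (min 1 (π b - π a))

theorem pot_le (h : c.Ok) (π : τ → ℤ) (D : Finset (τ × τ))
    (hh : ∀ a ∈ c.cs, ∀ b ∈ c.cs, c.hard a b ≠ 0 → |π a - π b| ≤ c.hard a b)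
    (hs : ∀ a ∈ c.cs, ∀ b ∈ c.cs, c.soft a b ≠ 0 → (a, b) ∉ D → |π a - π b| ≤ c.soft a b)
    {x y : Tg τ} (hx : x ∈ c.vs) (hy : y ∈ c.vs) (hlen : 0 < c.len x y)
    (hD : ∀ a b, (x = Sum.inl a ∧ y = Sum.inl b) → (a, b) ∉ D ∧ (b, a) ∉ D) :
    pot π y - pot π x ≤ c.len x y := by
  -- edges to middle vertices
  have key : ∀ a m, a ∈ c.cs → Sum.inr m ∈ c.vs → 0 < c.cm a m →
      |pot π (Sum.inr m) - π a| ≤ c.cm a m := by
    rintro a ⟨b, d, e⟩ ha hm hpos
    obtain ⟨hb, hd, _⟩ := (c.mem_vs_inr).1 hm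
    unfold cm at hpos ⊢
    simp only at hpos ⊢
    by_cases h0 : c.hard b d = 0
    · rw [if_pos h0] at hpos
      omega
    · rw [if_neg h0] at hpos ⊢
      have h2 := h.two b d h0
      have h3 := hh b hb d hd h0
      have h4 : c.hard d d = 0 := h.irr d
      by_cases h5 : a = b
      · rw [if_pos h5]
        subst h5
        simp only [pot]
        rw [abs_le]
        constructor <;> push_cast <;> omega
      · rw [if_neg h5] at hpos ⊢
        by_cases h6 : a = d
        · rw [if_pos h6]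
          subst h6
          simp only [pot]
          rw [abs_le] at h3 ⊢
          have h7 : ((c.hard b a - 1 : ℕ) : ℤ) = (c.hard b a : ℤ) - 1 := by
            rw [Nat.cast_sub (by omega)]
            simp
          rw [h7]
          constructor <;> omega
        · rw [if_neg h6] at hpos
          omega
  rcases x with a | m <;> rcases y with b | m'
  · have ha := (c.mem_vs_inl).1 hx
    have hb := (c.mem_vs_inl).1 hy
    have hD' := hD a b ⟨rfl, rfl⟩
    simp only [len] at hlen ⊢
    simp only [pot]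
    by_cases h1 : c.soft a b = 0
    · have h2 : c.soft b a ≠ 0 := by omega
      have h3 := hs b hb a ha h2 hD'.2
      rw [abs_le] at h3
      rw [h1]
      push_cast
      omega
    · have h3 := hs a ha b hb h1 hD'.1
      rw [abs_le] at h3
      push_cast
      omega
  · have h1 := key a m' ((c.mem_vs_inl).1 hx) hy hlen
    rw [abs_le] at h1
    simp only [len]
    change pot π (Sum.inr m') - π a ≤ _
    omega
  · have h1 := key b m ((c.mem_vs_inl).1 hy) hx hlen
    rw [abs_le] at h1
    simp only [len]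
    change π b - pot π (Sum.inr m) ≤ _
    omega
  · simp only [len] at hlen
    omega

theorem first (s t : τ) (r : List τ) (hcs : c.cs = s :: t :: r) :
    ∃ (h0 : 0 < c.mat.length) (h1 : 1 < c.mat.length), c.nm ⟨0, h0⟩ = Sum.inl s ∧
      c.nm ⟨1, h1⟩ = Sum.inl t := by
  have hv : ∃ r', c.vs = Sum.inl s :: Sum.inl t :: r' := by
    unfold vs
    rw [hcs]
    exact ⟨_, rfl⟩
  obtain ⟨r', hr'⟩ := hv
  have hl : c.mat.length = r'.length + 2 := by
    rw [length_mat, hr']
    rfl
  refine ⟨by omega, by omega, ?_, ?_⟩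
  · unfold nm
    simp only [hr', List.getElem_cons_zero]
  · unfold nm
    simp only [hr', List.getElem_cons_succ, List.getElem_cons_zero]

/-- the completeness part -/
theorem complete (h : c.Ok) (π : τ → ℤ) (D : Finset (τ × τ)) (s t : τ) (r : List τ)
    (hcs : c.cs = s :: t :: r) (l : ℕ) (hcard : D.card ≤ c.K) (hl : (l : ℤ) ≤ π t - π s)
    (hDs : ∀ a b, (a, b) ∈ D → a ∈ c.cs ∧ b ∈ c.cs ∧ c.soft a b ≠ 0)
    (hh : ∀ a ∈ c.cs, ∀ b ∈ c.cs, c.hard a b ≠ 0 → |π a - π b| ≤ c.hard a b)
    (hs : ∀ a ∈ c.cs, ∀ b ∈ c.cs, c.soft a b ≠ 0 → (a, b) ∉ D → |π a - π b| ≤ c.soft a b) :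
    SPMVE (c.mat, (0, 1), (c.K, l)) := by
  classical
  obtain ⟨hsl, htl, e1, e2⟩ := first s t r hcs
  -- the deleted edges
  have hidx : ∀ p : τ × τ, p ∈ D → ∃ i j : Fin c.mat.length,
      c.nm i = Sum.inl p.1 ∧ c.nm j = Sum.inl p.2 := by
    rintro ⟨a, b⟩ hp
    obtain ⟨h1, h2, _⟩ := hDs a b hp
    obtain ⟨i, hi⟩ := exists_idx ((c.mem_vs_inl).2 h1)
    obtain ⟨j, hj⟩ := exists_idx ((c.mem_vs_inl).2 h2)
    exact ⟨i, j, hi, hj⟩
  let f : τ × τ → Sym2 (Fin c.mat.length) := fun p =>
    if hp : p ∈ D then s((hidx p hp).choose, (hidx p hp).choose_spec.choose) else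
      s(⟨_, hsl⟩, ⟨_, hsl⟩)
  have hf : ∀ p, (hp : p ∈ D) → ∃ i j : Fin c.mat.length, c.nm i = Sum.inl p.1 ∧
      c.nm j = Sum.inl p.2 ∧ f p = s(i, j) := by
    intro p hp
    refine ⟨_, _, (hidx p hp).choose_spec.choose_spec.1, (hidx p hp).choose_spec.choose_spec.2, ?_⟩
    simp only [f]
    rw [dif_pos hp]
  refine ⟨hsl, htl, D.image f, ?_, (Finset.card_image_le).trans hcard, ?_⟩
  · intro e he
    rw [Finset.coe_image] at he
    obtain ⟨p, hp, rfl⟩ := he
    obtain ⟨i, j, hi, hj, hij⟩ := hf p hp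
    rw [hij, SimpleGraph.mem_edgeSet]
    obtain ⟨_, _, h3⟩ := hDs p.1 p.2 hp
    refine ⟨?_, ?_⟩
    · intro heq
      subst heq
      rw [hi] at hj
      have h4 := Sum.inl_injective hj
      rw [h4] at h3
      exact h3 (h.irs _)
    · change 0 < wt c.mat i j
      rw [wt_nm, hi, hj]
      simp only [len]
      omega
  · intro p _
    have hlast := potential (fun u v : Fin c.mat.length => wt c.mat u v)
      (fun i => pot π (c.nm i)) (G := (gr c.mat).deleteEdges
        ((D.image f : Finset _) : Set (Sym2 (Fin c.mat.length)))) (by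
        intro u v huv
        rw [SimpleGraph.deleteEdges_adj] at huv
        obtain ⟨⟨huv1, huv2⟩, huv3⟩ := huv
        rw [wt_nm]
        rw [wt_nm] at huv2
        refine pot_le h π D hh hs (nm_mem u) (nm_mem v) huv2 ?_
        rintro a b ⟨ha, hb⟩
        constructor
        · intro hab
          apply huv3
          rw [Finset.coe_image]
          obtain ⟨i, j, hi, hj, hij⟩ := hf _ hab
          refine ⟨_, hab, ?_⟩
          rw [hij, h.nm_inj (hi.trans ha.symm), h.nm_inj (hj.trans hb.symm)]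
        · intro hab
          apply huv3
          rw [Finset.coe_image]
          obtain ⟨i, j, hi, hj, hij⟩ := hf _ hab
          refine ⟨_, hab, ?_⟩
          rw [hij, h.nm_inj (hi.trans hb.symm), h.nm_inj (hj.trans ha.symm), Sym2.eq_swap])
      p
    simp only [e1, e2, pot] at hlast
    have h5 : (l : ℤ) ≤ (plen (fun u v : Fin c.mat.length => wt c.mat u v) p : ℤ) :=
      hl.trans hlast
    exact_mod_cast h5

/-! ### Soundness -/

/-- core vertices at distance at most `L` after the deletion of `S` -/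
def Rch (c : Core τ) (S : Finset (Sym2 (Fin c.mat.length))) (a b : τ) (L : ℕ) : Prop :=
  ∃ (i j : Fin c.mat.length) (p : ((gr c.mat).deleteEdges
    (S : Set (Sym2 (Fin c.mat.length)))).Walk i j), c.nm i = Sum.inl a ∧ c.nm j = Sum.inl b ∧
    plen (fun u v : Fin c.mat.length => wt c.mat u v) p ≤ L

variable {S : Finset (Sym2 (Fin c.mat.length))}

theorem Rch.refl {a : τ} (ha : a ∈ c.cs) : Rch c S a a 0 := by
  obtain ⟨i, hi⟩ := exists_idx ((c.mem_vs_inl).2 ha)
  exact ⟨i, i, SimpleGraph.Walk.nil, hi, hi, le_rfl⟩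

theorem Rch.trans (h : c.Ok) {a b d : τ} {L L' : ℕ} (h1 : Rch c S a b L) (h2 : Rch c S b d L') :
    Rch c S a d (L + L') := by
  obtain ⟨i, j, p, hi, hj, hp⟩ := h1
  obtain ⟨i', j', q, hi', hj', hq⟩ := h2
  have := h.nm_inj (hj.trans hi'.symm)
  subst this
  refine ⟨i, j', p.append q, hi, hj', ?_⟩
  rw [plen_append]
  omega

theorem Rch.mono {a b : τ} {L L' : ℕ} (h1 : Rch c S a b L) (hL : L ≤ L') : Rch c S a b L' := by
  obtain ⟨i, j, p, hi, hj, hp⟩ := h1
  exact ⟨i, j, p, hi, hj, hp.trans hL⟩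

/-- a soft edge is deleted -/
def Del (c : Core τ) (S : Finset (Sym2 (Fin c.mat.length))) (a b : τ) : Prop :=
  ∃ i j : Fin c.mat.length, c.nm i = Sum.inl a ∧ c.nm j = Sum.inl b ∧ s(i, j) ∈ S

theorem soft_step (h : c.Ok) {a b : τ} (ha : a ∈ c.cs) (hb : b ∈ c.cs) (hs : c.soft a b ≠ 0)
    (hD : ¬ Del c S a b) : Rch c S a b (c.soft a b) := by
  obtain ⟨i, hi⟩ := exists_idx ((c.mem_vs_inl).2 ha)
  obtain ⟨j, hj⟩ := exists_idx ((c.mem_vs_inl).2 hb)
  have h0 := h.one a b hs
  have hw : wt c.mat i j = c.soft a b := by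
    rw [wt_nm, hi, hj]
    simp only [len]
    omega
  have hadj : ((gr c.mat).deleteEdges (S : Set (Sym2 (Fin c.mat.length)))).Adj i j := by
    rw [SimpleGraph.deleteEdges_adj]
    refine ⟨⟨?_, by rw [hw]; omega⟩, fun hS => hD ⟨i, j, hi, hj, hS⟩⟩
    intro heq
    subst heq
    rw [hi] at hj
    have h4 := Sum.inl_injective hj
    rw [h4] at hs
    exact hs (h.irs _)
  refine ⟨i, j, SimpleGraph.Walk.cons hadj SimpleGraph.Walk.nil, hi, hj, ?_⟩
  rw [plen_cons, plen_nil]
  omega

theorem hard_step (h : c.Ok) (hS : S.card ≤ c.K) {a b : τ} (ha : a ∈ c.cs) (hb : b ∈ c.cs)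
    (hh : c.hard a b ≠ 0) : Rch c S a b (c.hard a b) ∧ Rch c S b a (c.hard a b) := by
  classical
  obtain ⟨i, hi⟩ := exists_idx ((c.mem_vs_inl).2 ha)
  obtain ⟨j, hj⟩ := exists_idx ((c.mem_vs_inl).2 hb)
  haveI : Nonempty (Fin c.mat.length) := ⟨i⟩
  have hmid : ∀ e, e ≤ c.K → ∃ m : Fin c.mat.length, c.nm m = Sum.inr (a, b, e) := fun e he =>
    exists_idx ((c.mem_vs_inr).2 ⟨ha, hb, he⟩)
  choose! m hm using hmid
  have hab : a ≠ b := fun heq => hh (by rw [heq]; exact h.irr b)
  have h2 := h.two a b hh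
  have hgood : ∃ e ≤ c.K, s(i, m e) ∉ S ∧ s(m e, j) ∉ S := by
    by_contra hcon
    push Not at hcon
    let g : ℕ → Sym2 (Fin c.mat.length) := fun e => if s(i, m e) ∈ S then s(i, m e) else s(m e, j)
    have hg : ∀ e ∈ range (c.K + 1), g e ∈ S := by
      intro e he
      have he' : e ≤ c.K := by have := mem_range.1 he; omega
      simp only [g]
      split_ifs with h1
      · exact h1
      · exact hcon e he' h1
    have hcore : ∀ e ≤ c.K, i ≠ m e ∧ j ≠ m e := by
      intro e he
      constructor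
      · intro heq
        rw [heq, hm e he] at hi
        simp at hi
      · intro heq
        rw [heq, hm e he] at hj
        simp at hj
    have hinj : Set.InjOn g (range (c.K + 1) : Set ℕ) := by
      intro e he e' he' hee
      rw [Finset.mem_coe, mem_range] at he he'
      have q1 := hcore e (by omega)
      have q2 := hcore e' (by omega)
      have hme : m e = m e' := by
        simp only [g] at hee
        split_ifs at hee <;> rw [Sym2.eq_iff] at hee <;>
        · rcases hee with ⟨h3, h4⟩ | ⟨h3, h4⟩ <;>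
            first
            | exact h4
            | exact h3
            | exact absurd h3 q2.1
            | exact absurd h4 q1.1.symm
            | exact absurd h3 q1.1.symm
            | exact absurd h3.symm q1.1
            | exact absurd h4.symm q2.1
            | exact absurd h4.symm q1.1
            | exact absurd h3.symm q2.2
            | exact absurd h4.symm q2.2
            | exact absurd h4 q2.2
            | exact absurd h3 q2.2
            | exact absurd h3 q1.2
            | exact absurd h4 q1.2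
            | exact absurd h3.symm q1.2
            | exact absurd h4.symm q1.2
      have h5 := hm e (by omega)
      rw [hme, hm e' (by omega)] at h5
      simp only [Sum.inr.injEq, Prod.mk.injEq, true_and] at h5
      exact h5.symm
    have := Finset.card_le_card_of_injOn g hg hinj
    rw [card_range] at this
    omega
  obtain ⟨e, he, h3, h4⟩ := hgood
  have w1 : wt c.mat i (m e) = 1 := by
    rw [wt_nm, hi, hm e he]
    simp only [len, cm, if_neg hh, if_true]
  have w2 : wt c.mat (m e) j = c.hard a b - 1 := by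
    rw [wt_nm, hj, hm e he]
    simp only [len, cm, if_neg hh, if_neg hab.symm, if_true]
  have a1 : ((gr c.mat).deleteEdges (S : Set (Sym2 (Fin c.mat.length)))).Adj i (m e) := by
    rw [SimpleGraph.deleteEdges_adj]
    refine ⟨⟨?_, by rw [w1]; omega⟩, h3⟩
    intro heq
    rw [heq, hm e he] at hi
    simp at hi
  have a2 : ((gr c.mat).deleteEdges (S : Set (Sym2 (Fin c.mat.length)))).Adj (m e) j := by
    rw [SimpleGraph.deleteEdges_adj]
    refine ⟨⟨?_, by rw [w2]; omega⟩, h4⟩
    intro heq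
    rw [← heq, hm e he] at hj
    simp at hj
  constructor
  · refine ⟨i, j, SimpleGraph.Walk.cons a1 (SimpleGraph.Walk.cons a2 SimpleGraph.Walk.nil), hi, hj,
      ?_⟩
    rw [plen_cons, plen_cons, plen_nil, w1, w2]
    omega
  · refine ⟨j, i, SimpleGraph.Walk.cons a2.symm (SimpleGraph.Walk.cons a1.symm
      SimpleGraph.Walk.nil), hj, hi, ?_⟩
    rw [plen_cons, plen_cons, plen_nil, wt_comm c.mat j (m e), wt_comm c.mat (m e) i, w1, w2]
    omega

/-- the soundness part -/
theorem sound (h : c.Ok) (s t : τ) (r : List τ) (hcs : c.cs = s :: t :: r) (l : ℕ)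
    (hI : SPMVE (c.mat, (0, 1), (c.K, l))) :
    ∃ S : Finset (Sym2 (Fin c.mat.length)), S.card ≤ c.K ∧ ∀ L, Rch c S s t L → l ≤ L := by
  obtain ⟨hs, ht, S, hS1, hS2, hS3⟩ := hI
  refine ⟨S, hS2, ?_⟩
  rintro L ⟨i, j, p, hi, hj, hp⟩
  simp only at hs ht hS3
  obtain ⟨_, _, e1, e2⟩ := first s t r hcs
  have f1 := h.nm_inj (e1.trans hi.symm)
  have f2 := h.nm_inj (e2.trans hj.symm)
  subst f1 f2
  obtain ⟨q, hq1, hq2⟩ := exists_path (fun u v : Fin c.mat.length => wt c.mat u v) p
  exact (hS3 q hq1).trans (hq2.trans hp)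

end Core

end Pool.Agent.V11225.MV
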