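import Pool.Agent.H257R2.LJW.Clique
import Pool.Agent.H671R2.PolyAuto

/-!
# Shortest Path Most Vital Edges: the problem
-/

namespace Pool.Agent.V11225.MV

open Pool.Agent.NPC

/-- entry of a matrix of numbers (missing entries are `0`) -/
def ent (T : List (List ℕ)) (i j : ℕ) : ℕ := (T.getD i []).getD j 0

/-- the length of the pair `i`, `j` (`0` if there is no edge) -/
def wt (T : List (List ℕ)) (i j : ℕ) : ℕ := max (ent T i j) (ent T j i)

theorem wt_comm (T : List (List ℕ)) (i j : ℕ) : wt T i j = wt T j i := max_comm _ _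

/-- The graph of a matrix of edge lengths: vertices `0, …, T.length - 1`; different vertices `i`, `j`
are adjacent if the larger one of the entries `(i, j)` and `(j, i)` is positive; this entry is the
length of the edge. -/
def gr (T : List (List ℕ)) : SimpleGraph (Fin T.length) where
  Adj u v := u ≠ v ∧ 0 < wt T u v
  symm := ⟨fun u v h => ⟨h.1.symm, by rw [wt_comm]; exact h.2⟩⟩
  loopless := ⟨fun _ h => h.1 rfl⟩

/-- The total length of a walk, for edge lengths `w`. -/
def plen {V : Type} (w : V → V → ℕ) {G : SimpleGraph V} {u v : V} (p : G.Walk u v) : ℕ :=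
  (p.darts.map fun d => w d.fst d.snd).sum

/-- **Shortest Path Most Vital Edges**, instances `(T, (s, t), (k, l))`: the graph with the edge
lengths `T` has a set `S` of at most `k` edges such that every path from `s` to `t` which avoids
the edges of `S` has length at least `l`. -/
def SPMVE (I : List (List ℕ) × (ℕ × ℕ) × (ℕ × ℕ)) : Prop :=
  ∃ (hs : I.2.1.1 < I.1.length) (ht : I.2.1.2 < I.1.length) (S : Finset (Sym2 (Fin I.1.length))),
    (S : Set (Sym2 (Fin I.1.length))) ⊆ (gr I.1).edgeSet ∧ S.card ≤ I.2.2.1 ∧
    ∀ p : ((gr I.1).deleteEdges (S : Set (Sym2 (Fin I.1.length)))).Walk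
      ⟨I.2.1.1, hs⟩ ⟨I.2.1.2, ht⟩, p.IsPath →
      I.2.2.2 ≤ plen (fun u v : Fin I.1.length => wt I.1 u v) p

section general

variable {V : Type} {G : SimpleGraph V} (w : V → V → ℕ)

theorem plen_nil (u : V) : plen w (SimpleGraph.Walk.nil : G.Walk u u) = 0 := rfl

theorem plen_cons {u v x : V} (h : G.Adj u v) (p : G.Walk v x) :
    plen w (SimpleGraph.Walk.cons h p) = w u v + plen w p := by
  simp [plen]

theorem plen_append {u v x : V} (p : G.Walk u v) (q : G.Walk v x) :
    plen w (p.append q) = plen w p + plen w q := by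
  induction p with
  | nil => rw [SimpleGraph.Walk.nil_append, plen_nil, Nat.zero_add]
  | cons h p ih => rw [SimpleGraph.Walk.cons_append, plen_cons, plen_cons, ih, Nat.add_assoc]

theorem exists_path {u v : V} (p : G.Walk u v) :
    ∃ q : G.Walk u v, q.IsPath ∧ plen w q ≤ plen w p := by
  classical
  induction p with
  | nil => exact ⟨SimpleGraph.Walk.nil, SimpleGraph.Walk.IsPath.nil, le_rfl⟩
  | @cons u v x h p ih =>
    obtain ⟨q, hq, hl⟩ := ih
    by_cases hu : u ∈ q.support
    · refine ⟨q.dropUntil u hu, hq.dropUntil hu, ?_⟩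
      have h1 := plen_append w (q.takeUntil u hu) (q.dropUntil u hu)
      rw [SimpleGraph.Walk.take_spec] at h1
      rw [plen_cons]
      omega
    · refine ⟨SimpleGraph.Walk.cons h q, hq.cons hu, ?_⟩
      rw [plen_cons, plen_cons]
      omega

theorem potential (π : V → ℤ) (h : ∀ u v, G.Adj u v → π v - π u ≤ w u v) {u v : V}
    (p : G.Walk u v) : π v - π u ≤ plen w p := by
  induction p with
  | nil => rw [plen_nil]; simp
  | @cons u v x hadj p ih =>
    rw [plen_cons]
    have := h u v hadj
    push_cast
    omega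

end general

/-- reading a matrix which is given by a list -/
theorem ent_map {τ : Type} (vs : List τ) (f : τ → τ → ℕ) {i j : ℕ} (hi : i < vs.length)
    (hj : j < vs.length) : ent (vs.map fun x => vs.map fun y => f x y) i j = f vs[i] vs[j] := by
  unfold ent
  simp [List.getD_eq_getElem?_getD, hi, hj]

end Pool.Agent.V11225.MV
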