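import Pool.Agent.V11225.MV.Build

/-!
# The reduction from Clique: the core graph
-/

namespace Pool.Agent.V11225.MV

open Finset

/-- core vertices: kind (`0`: source, `1`: sink, `2`, `3`: lists), indices of the list, position -/
abbrev Cr := ℕ × ℕ × ℕ × ℕ

/-- the value of an item -/
def val (n i j q : ℕ) : ℕ := if i ≤ j then q else (q % n) * n + q / n

/-- the weight of an item -/
def wgt (n k i j q : ℕ) : ℕ := if k = 2 then val n i j q else n * n - val n i j q

/-- the allowed items -/
def allow (n : ℕ) (adj : ℕ → ℕ → Bool) (i j q : ℕ) : Bool := decide (i = j) || adj (q / n) (q % n)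

/-- hard edges -/
def hE (n : ℕ) (adj : ℕ → ℕ → Bool) (ka ia ja ma kb ib jb mb : ℕ) : ℕ :=
  if ka = 0 then
    (if mb = 0 then (if kb = 2 then 2 else if kb = 3 then 4 * (n * n) + 12 else 0) else 0)
  else if kb = 1 then
    (if ma = n * n then (if ka = 2 then 4 * (n * n) + 12 else if ka = 3 then 2 else 0) else 0)
  else if ka = 1 then 0
  else if kb = 0 then 0
  else if ka = kb ∧ ia = ib ∧ ja = jb then
    (if mb = ma + 1 then (if allow n adj ia ja ma = true then n * n + 10 + wgt n ka ia ja ma else 2)
      else 0)
  else if ka = kb ∧ ia = ib ∧ ja = ia ∧ ma = mb ∧ ma % n = 0 then n * n + 2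
  else if ka = 2 ∧ kb = 3 ∧ ia = ib ∧ ja = jb ∧ ma = mb then 4 * (n * n) + 10
  else if ka = 2 ∧ kb = 3 ∧ ma = n * n ∧ mb = 0 ∧ ((ia = ib ∧ ja = jb) ∨ (ia = jb ∧ ja = ib)) then 2
  else 0

/-- soft edges -/
def sE (n : ℕ) (adj : ℕ → ℕ → Bool) (ka ia ja ma kb ib jb mb : ℕ) : ℕ :=
  if 2 ≤ ka ∧ ka = kb ∧ ia = ib ∧ ja = jb ∧ mb = ma + 1 ∧ allow n adj ia ja ma = true then 2 else 0

/-- the core vertices -/
def crs (n κ : ℕ) : List Cr :=
  (0, 0, 0, 0) :: (1, 0, 0, 0) :: (List.range 2).flatMap fun k =>
    (List.range κ).flatMap fun i => (List.range κ).flatMap fun j =>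
      (List.range (n * n + 1)).map fun m => (k + 2, i, j, m)

/-- the core graph -/
def core (n κ : ℕ) (adj : ℕ → ℕ → Bool) : Core Cr where
  cs := crs n κ
  hard a b := hE n adj a.1 a.2.1 a.2.2.1 a.2.2.2 b.1 b.2.1 b.2.2.1 b.2.2.2
  soft a b := sE n adj a.1 a.2.1 a.2.2.1 a.2.2.2 b.1 b.2.1 b.2.2.1 b.2.2.2
  K := 2 * (κ * κ)

/-- the bound -/
def bnd (n : ℕ) : ℕ := 7 * (n * n) + 22

theorem mem_crs {n κ : ℕ} {x : Cr} : x ∈ crs n κ ↔ x = (0, 0, 0, 0) ∨ x = (1, 0, 0, 0) ∨
    ∃ k i j m, (k = 2 ∨ k = 3) ∧ i < κ ∧ j < κ ∧ m ≤ n * n ∧ x = (k, i, j, m) := by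
  unfold crs
  simp only [List.mem_cons, List.mem_flatMap, List.mem_range, List.mem_map]
  refine or_congr_right (or_congr_right ?_)
  constructor
  · rintro ⟨k, hk, i, hi, j, hj, m, hm, rfl⟩
    exact ⟨k + 2, i, j, m, by omega, hi, hj, by omega, rfl⟩
  · rintro ⟨k, i, j, m, hk, hi, hj, hm, rfl⟩
    exact ⟨k - 2, by omega, i, hi, j, hj, m, by omega, by
      rw [Prod.mk.injEq]
      exact ⟨by omega, rfl⟩⟩

theorem nodup_crs (n κ : ℕ) : (crs n κ).Nodup := by
  unfold crs
  refine List.nodup_cons.2 ⟨?_, List.nodup_cons.2 ⟨?_, ?_⟩⟩
  · simp
  · simp
  · rw [List.nodup_flatMap]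
    constructor
    · intro k _
      rw [List.nodup_flatMap]
      constructor
      · intro i _
        rw [List.nodup_flatMap]
        constructor
        · intro j _
          exact List.nodup_range.map fun x y hxy => by simpa using hxy
        · refine List.nodup_range.imp ?_
          intro j j' hjj
          rw [Function.onFun, List.disjoint_left]
          intro x hx hx'
          obtain ⟨m, _, rfl⟩ := List.mem_map.1 hx
          obtain ⟨m', _, h⟩ := List.mem_map.1 hx'
          simp only [Prod.mk.injEq] at h
          exact hjj h.2.2.1.symm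
      · refine List.nodup_range.imp ?_
        intro i i' hii
        rw [Function.onFun, List.disjoint_left]
        intro x hx hx'
        obtain ⟨j, _, h1⟩ := List.mem_flatMap.1 hx
        obtain ⟨m, _, rfl⟩ := List.mem_map.1 h1
        obtain ⟨j', _, h1'⟩ := List.mem_flatMap.1 hx'
        obtain ⟨m', _, h⟩ := List.mem_map.1 h1'
        simp only [Prod.mk.injEq] at h
        exact hii h.2.1.symm
    · refine List.nodup_range.imp ?_
      intro k k' hkk
      rw [Function.onFun, List.disjoint_left]
      intro x hx hx'
      obtain ⟨i, _, h0⟩ := List.mem_flatMap.1 hx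
      obtain ⟨j, _, h1⟩ := List.mem_flatMap.1 h0
      obtain ⟨m, _, rfl⟩ := List.mem_map.1 h1
      obtain ⟨i', _, h0'⟩ := List.mem_flatMap.1 hx'
      obtain ⟨j', _, h1'⟩ := List.mem_flatMap.1 h0'
      obtain ⟨m', _, h⟩ := List.mem_map.1 h1'
      simp only [Prod.mk.injEq] at h
      omega

theorem core_ok (n κ : ℕ) (adj : ℕ → ℕ → Bool) : (core n κ adj).Ok := by
  refine ⟨nodup_crs n κ, ?_, ?_, ?_, ?_⟩
  · intro a b
    simp only [core]
    unfold hE
    split_ifs <;> omega
  · intro a
    simp only [core]
    unfold hE
    split_ifs <;> omega
  · intro a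
    simp only [core]
    unfold sE
    rw [if_neg]
    omega
  · intro a b
    simp only [core]
    unfold sE
    split_ifs <;> omega

/-! ### Completeness -/

/-- the chosen items -/
def itm (n : ℕ) (z : ℕ → ℕ) (i j : ℕ) : ℕ := z i * n + z j

/-- the potential -/
def phi (n : ℕ) (z : ℕ → ℕ) (x : Cr) : ℤ :=
  if x.1 = 0 then 0
  else if x.1 = 1 then 7 * (n * n) + 22
  else if x.1 = 2 then
    2 + 2 * x.2.2.2 + (if x.2.2.2 ≤ itm n z x.2.1 x.2.2.1 then 0 else
      n * n + 8 + (val n x.2.1 x.2.2.1 (itm n z x.2.1 x.2.2.1) : ℤ))
  else
    5 * (n * n) + 20 + 2 * x.2.2.2 - (if x.2.2.2 ≤ itm n z x.2.1 x.2.2.1 then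
      n * n + 8 + (n * n - (val n x.2.1 x.2.2.1 (itm n z x.2.1 x.2.2.1) : ℤ)) else 0)

theorem itm_facts {n : ℕ} {z : ℕ → ℕ} {i j : ℕ} (hi : z i < n) (hj : z j < n) :
    itm n z i j < n * n ∧ itm n z i j / n = z i ∧ itm n z i j % n = z j := by
  unfold itm
  have hn : 0 < n := by omega
  have h1 : (z i + 1) * n ≤ n * n := Nat.mul_le_mul_right _ hi
  rw [Nat.add_mul, Nat.one_mul] at h1
  refine ⟨by omega, ?_, ?_⟩
  · rw [Nat.add_comm, Nat.add_mul_div_right _ _ hn, Nat.div_eq_of_lt hj, Nat.zero_add]
  · rw [Nat.add_comm, Nat.add_mul_mod_self_right, Nat.mod_eq_of_lt hj]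

theorem val_itm {n : ℕ} {z : ℕ → ℕ} {i j : ℕ} (hi : z i < n) (hj : z j < n) :
    val n i j (itm n z i j) = if i ≤ j then z i * n + z j else z j * n + z i := by
  obtain ⟨_, h2, h3⟩ := itm_facts hi hj
  unfold val
  split_ifs
  · rfl
  · rw [h2, h3]

theorem val_itm_comm {n : ℕ} {z : ℕ → ℕ} {i j : ℕ} (hi : z i < n) (hj : z j < n) :
    val n i j (itm n z i j) = val n j i (itm n z j i) := by
  rw [val_itm hi hj, val_itm hj hi]
  rcases Nat.lt_trichotomy i j with h | h | h
  · rw [if_pos h.le, if_neg (by omega)]
  · subst h
    rfl
  · rw [if_neg (by omega), if_pos h.le]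

theorem val_itm_lt {n : ℕ} {z : ℕ → ℕ} {i j : ℕ} (hi : z i < n) (hj : z j < n) :
    val n i j (itm n z i j) < n * n := by
  have h1 := (itm_facts (i := i) (j := j) hi hj).1
  have h2 := (itm_facts (i := j) (j := i) hj hi).1
  rw [val_itm hi hj]
  unfold itm at h1 h2
  split_ifs <;> assumption

theorem le_itm_iff {n : ℕ} {z : ℕ → ℕ} {i j m : ℕ} (hi : z i < n) (hj : z j < n)
    (hm : m % n = 0) : m ≤ itm n z i j ↔ m / n ≤ z i := by
  have hn : 0 < n := by omega
  have h1 := itm_facts (i := i) (j := j) hi hj
  constructor
  · intro h
    rw [← h1.2.1]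
    exact Nat.div_le_div_right h
  · intro h
    have h2 : m = m / n * n := by
      have := Nat.div_add_mod m n
      rw [hm, Nat.add_zero, Nat.mul_comm] at this
      exact this.symm
    rw [h2]
    unfold itm
    exact (Nat.mul_le_mul_right _ h).trans (Nat.le_add_right _ _)

theorem complete_core (n κ : ℕ) (adj : ℕ → ℕ → Bool) (z : ℕ → ℕ) (hz : ∀ i < κ, z i < n)
    (hadj : ∀ i < κ, ∀ j < κ, i ≠ j → adj (z i) (z j) = true) :
    SPMVE ((core n κ adj).mat, (0, 1), ((core n κ adj).K, bnd n)) := by
  classical
  let D : Finset (Cr × Cr) := ((range 2) ×ˢ (range κ ×ˢ range κ)).image fun x =>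
    ((x.1 + 2, x.2.1, x.2.2, itm n z x.2.1 x.2.2), (x.1 + 2, x.2.1, x.2.2, itm n z x.2.1 x.2.2 + 1))
  have hD : ∀ k i j m, (k = 2 ∨ k = 3) → i < κ → j < κ →
      (((k, i, j, m), (k, i, j, m + 1)) : Cr × Cr) ∉ D → m ≠ itm n z i j := by
    intro k i j m hk hi hj hn hm
    apply hn
    rw [Finset.mem_image]
    refine ⟨(k - 2, i, j), ?_, ?_⟩
    · simp only [mem_product, mem_range]
      exact ⟨by omega, hi, hj⟩
    · have hk2 : k - 2 + 2 = k := by omega
      simp only [hk2, hm]
  have hallow : ∀ i < κ, ∀ j < κ, allow n adj i j (itm n z i j) = true := by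
    intro i hi j hj
    obtain ⟨_, h2, h3⟩ := itm_facts (hz i hi) (hz j hj)
    unfold allow
    rw [h2, h3]
    by_cases h : i = j
    · simp [h]
    · simp [h, hadj i hi j hj h]
  refine (core n κ adj).complete (core_ok n κ adj) (phi n z) D (0, 0, 0, 0) (1, 0, 0, 0) _ rfl
    (bnd n) ?_ ?_ ?_ ?_ ?_
  · refine (Finset.card_image_le).trans ?_
    simp [core]
  · simp [phi, bnd]
  · intro a b hab
    rw [Finset.mem_image] at hab
    obtain ⟨⟨k, i, j⟩, hx, hxy⟩ := hab
    simp only [mem_product, mem_range] at hx
    simp only [Prod.mk.injEq] at hxy
    obtain ⟨rfl, rfl⟩ := hxy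
    have h1 := (itm_facts (hz i hx.2.1) (hz j hx.2.2)).1
    refine ⟨mem_crs.2 (Or.inr (Or.inr ⟨k + 2, i, j, _, by omega, hx.2.1, hx.2.2, h1.le, rfl⟩)),
      mem_crs.2 (Or.inr (Or.inr ⟨k + 2, i, j, _, by omega, hx.2.1, hx.2.2, h1, rfl⟩)), ?_⟩
    simp only [core, sE]
    rw [if_pos ⟨by omega, trivial, trivial, trivial, trivial, hallow i hx.2.1 j hx.2.2⟩]
    decide
  · -- hard edges
    intro a ha b hb hne
    rcases mem_crs.1 ha with rfl | rfl | ⟨ka, ia, ja, ma, hka, hia, hja, hma, rfl⟩
    · rcases mem_crs.1 hb with rfl | rfl | ⟨kb, ib, jb, mb, hkb, hib, hjb, hmb, rfl⟩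
      · simp [core, hE] at hne
      · simp [core, hE] at hne
      · simp only [core, hE] at hne ⊢
        have h1 := val_itm_lt (i := ib) (j := jb) (hz ib hib) (hz jb hjb)
        rcases hkb with rfl | rfl
        · simp only [phi, if_true] at hne ⊢
          by_cases hm : mb = 0
          · subst hm
            simp
          · simp [hm] at hne
        · simp only [phi, if_true] at hne ⊢
          by_cases hm : mb = 0
          · subst hm
            simp only [if_true, Nat.zero_le, OfNat.ofNat_ne_zero, if_false, OfNat.ofNat_ne_one,
              Nat.reduceEqDiff]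
            rw [abs_le]
            push_cast
            constructor <;> nlinarith
          · simp [hm] at hne
    · rcases mem_crs.1 hb with rfl | rfl | ⟨kb, ib, jb, mb, hkb, hib, hjb, hmb, rfl⟩
      · simp [core, hE] at hne
      · simp [core, hE] at hne
      · exfalso
        apply hne
        simp only [core, hE]
        rcases hkb with rfl | rfl <;> simp
    · rcases mem_crs.1 hb with rfl | rfl | ⟨kb, ib, jb, mb, hkb, hib, hjb, hmb, rfl⟩
      · exfalso
        apply hne
        simp only [core, hE]
        rcases hka with rfl | rfl <;> simp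
      · -- edges to the sink
        simp only [core, hE] at hne ⊢
        have h1 := val_itm_lt (i := ia) (j := ja) (hz ia hia) (hz ja hja)
        have h2 := (itm_facts (i := ia) (j := ja) (hz ia hia) (hz ja hja)).1
        by_cases hm : ma = n * n
        · subst hm
          rcases hka with rfl | rfl
          · simp only [phi]
            simp only [OfNat.ofNat_ne_zero, if_false, if_true, OfNat.ofNat_ne_one, one_ne_zero]
            rw [if_neg (by omega), abs_le]
            push_cast
            constructor <;> nlinarith
          · simp only [phi]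
            simp only [OfNat.ofNat_ne_zero, if_false, if_true, OfNat.ofNat_ne_one, one_ne_zero,
              Nat.reduceEqDiff]
            rw [if_neg (by omega), abs_le]
            push_cast
            constructor <;> nlinarith
        · exfalso
          apply hne
          rcases hka with rfl | rfl <;> simp [hm]
      · -- edges between lists
        have zia := hz ia hia
        have zja := hz ja hja
        have zib := hz ib hib
        have zjb := hz jb hjb
        have v1 := val_itm_lt (i := ia) (j := ja) zia zja
        have v2 := val_itm_lt (i := ib) (j := jb) zib zjb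
        have q1 := (itm_facts (i := ia) (j := ja) zia zja).1
        have q2 := (itm_facts (i := ib) (j := jb) zib zjb).1
        have hk0 : ka ≠ 0 := by omega
        have hk1 : ka ≠ 1 := by omega
        have hk0' : kb ≠ 0 := by omega
        have hk1' : kb ≠ 1 := by omega
        simp only [core, hE, if_neg hk0, if_neg hk1, if_neg hk0', if_neg hk1'] at hne ⊢
        by_cases c1 : ka = kb ∧ ia = ib ∧ ja = jb
        · rw [if_pos c1] at hne ⊢
          obtain ⟨rfl, rfl, rfl⟩ := c1
          by_cases c2 : mb = ma + 1
          · rw [if_pos c2] at hne ⊢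
            subst c2
            by_cases c3 : allow n adj ia ja ma = true
            · rw [if_pos c3]
              rcases hka with rfl | rfl
              · simp only [phi, wgt, if_true, if_neg hk0, if_neg hk1]
                rw [abs_le]
                by_cases c4 : ma = itm n z ia ja
                · rw [if_pos (by omega), if_neg (by omega), c4]
                  push_cast
                  constructor <;> linarith
                · by_cases c5 : ma ≤ itm n z ia ja
                  · rw [if_pos c5, if_pos (by omega)]
                    push_cast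
                    constructor <;> nlinarith
                  · rw [if_neg c5, if_neg (by omega)]
                    push_cast
                    constructor <;> nlinarith
              · simp only [phi, wgt, if_neg hk0, if_neg hk1, Nat.reduceEqDiff, if_false]
                rw [abs_le]
                by_cases c4 : ma = itm n z ia ja
                · rw [if_pos (by omega), if_neg (by omega), c4]
                  rw [Nat.cast_add, Nat.cast_sub v1.le]
                  push_cast
                  constructor <;> linarith
                · by_cases c5 : ma ≤ itm n z ia ja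
                  · rw [if_pos c5, if_pos (by omega)]
                    push_cast
                    constructor <;> nlinarith
                  · rw [if_neg c5, if_neg (by omega)]
                    push_cast
                    constructor <;> nlinarith
            · rw [if_neg c3]
              have c4 : ma ≠ itm n z ia ja := by
                intro h
                apply c3
                rw [h]
                exact hallow ia hia ja hja
              rcases hka with rfl | rfl
              · simp only [phi, if_true, if_neg hk0, if_neg hk1]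
                rw [abs_le]
                by_cases c5 : ma ≤ itm n z ia ja
                · rw [if_pos c5, if_pos (by omega)]
                  push_cast
                  constructor <;> linarith
                · rw [if_neg c5, if_neg (by omega)]
                  push_cast
                  constructor <;> linarith
              · simp only [phi, if_neg hk0, if_neg hk1, Nat.reduceEqDiff, if_false]
                rw [abs_le]
                by_cases c5 : ma ≤ itm n z ia ja
                · rw [if_pos c5, if_pos (by omega)]
                  push_cast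
                  constructor <;> linarith
                · rw [if_neg c5, if_neg (by omega)]
                  push_cast
                  constructor <;> linarith
          · rw [if_neg c2] at hne
            exact absurd rfl hne
        · rw [if_neg c1] at hne ⊢
          by_cases c2 : ka = kb ∧ ia = ib ∧ ja = ia ∧ ma = mb ∧ ma % n = 0
          · rw [if_pos c2]
            obtain ⟨rfl, rfl, rfl, rfl, hmod⟩ := c2
            have e1 := le_itm_iff (j := ja) zia zja hmod
            have e2 := le_itm_iff (j := jb) zia zjb hmod
            have e3 : ma ≤ itm n z ja ja ↔ ma ≤ itm n z ja jb := e1.trans e2.symm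
            rcases hka with rfl | rfl
            · simp only [phi, if_true, if_neg hk0, if_neg hk1]
              rw [abs_le]
              by_cases c5 : ma ≤ itm n z ja ja
              · rw [if_pos c5, if_pos (e3.1 c5)]
                push_cast
                constructor <;> nlinarith
              · rw [if_neg c5, if_neg (fun h => c5 (e3.2 h))]
                push_cast
                constructor <;> nlinarith
            · simp only [phi, if_neg hk0, if_neg hk1, Nat.reduceEqDiff, if_false]
              rw [abs_le]
              by_cases c5 : ma ≤ itm n z ja ja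
              · rw [if_pos c5, if_pos (e3.1 c5)]
                push_cast
                constructor <;> nlinarith
              · rw [if_neg c5, if_neg (fun h => c5 (e3.2 h))]
                push_cast
                constructor <;> nlinarith
          · rw [if_neg c2] at hne ⊢
            by_cases c3 : ka = 2 ∧ kb = 3 ∧ ia = ib ∧ ja = jb ∧ ma = mb
            · rw [if_pos c3]
              obtain ⟨rfl, rfl, rfl, rfl, rfl⟩ := c3
              simp only [phi, if_true, if_neg hk0, if_neg hk1, if_neg hk0', if_neg hk1',
                Nat.reduceEqDiff, if_false]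
              rw [abs_le]
              by_cases c5 : ma ≤ itm n z ia ja
              · rw [if_pos c5, if_pos c5]
                push_cast
                constructor <;> nlinarith
              · rw [if_neg c5, if_neg c5]
                push_cast
                constructor <;> nlinarith
            · rw [if_neg c3] at hne ⊢
              by_cases c4 : ka = 2 ∧ kb = 3 ∧ ma = n * n ∧ mb = 0 ∧
                  ((ia = ib ∧ ja = jb) ∨ (ia = jb ∧ ja = ib))
              · rw [if_pos c4]
                obtain ⟨rfl, rfl, rfl, rfl, hor⟩ := c4
                have hval : val n ib jb (itm n z ib jb) = val n ia ja (itm n z ia ja) := by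
                  rcases hor with ⟨rfl, rfl⟩ | ⟨rfl, rfl⟩
                  · rfl
                  · exact val_itm_comm zib zjb
                simp only [phi, if_true, if_neg hk0, if_neg hk1, if_neg hk0', if_neg hk1',
                  Nat.reduceEqDiff, if_false]
                rw [if_neg (by omega), if_pos (Nat.zero_le _), hval, abs_le]
                push_cast
                constructor <;> nlinarith
              · rw [if_neg c4] at hne
                exact absurd rfl hne
  · -- soft edges
    intro a ha b hb hne hab
    simp only [core, sE] at hne ⊢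
    split_ifs at hne ⊢ with hc
    · rcases mem_crs.1 ha with rfl | rfl | ⟨ka, ia, ja, ma, hka, hia, hja, hma, rfl⟩
      · simp at hc
      · simp at hc
      · rcases mem_crs.1 hb with rfl | rfl | ⟨kb, ib, jb, mb, hkb, hib, hjb, hmb, rfl⟩
        · simp at hc
        · simp at hc
        · simp only at hc
          obtain ⟨_, rfl, rfl, rfl, rfl, _⟩ := hc
          have c4 := hD ka ia ja ma hka hia hja hab
          have hk0 : ka ≠ 0 := by omega
          have hk1 : ka ≠ 1 := by omega
          rcases hka with rfl | rfl
          · simp only [phi, if_true, if_neg hk0, if_neg hk1]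
            rw [abs_le]
            by_cases c5 : ma ≤ itm n z ia ja
            · rw [if_pos c5, if_pos (by omega)]
              push_cast
              constructor <;> linarith
            · rw [if_neg c5, if_neg (by omega)]
              push_cast
              constructor <;> linarith
          · simp only [phi, if_neg hk0, if_neg hk1, Nat.reduceEqDiff, if_false]
            rw [abs_le]
            by_cases c5 : ma ≤ itm n z ia ja
            · rw [if_pos c5, if_pos (by omega)]
              push_cast
              constructor <;> linarith
            · rw [if_neg c5, if_neg (by omega)]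
              push_cast
              constructor <;> linarith
    · exact absurd rfl hne

end Pool.Agent.V11225.MV
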