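import Pool.Agent.V11225.MV.Red

/-!
# Soundness of the reduction
-/

namespace Pool.Agent.V11225.MV

open Finset Core

variable {n κ : ℕ} {adj : ℕ → ℕ → Bool}

theorem list_mem {k i j m : ℕ} (hk : k = 2 ∨ k = 3) (hi : i < κ) (hj : j < κ) (hm : m ≤ n * n) :
    ((k, i, j, m) : Cr) ∈ (core n κ adj).cs :=
  mem_crs.2 (Or.inr (Or.inr ⟨k, i, j, m, hk, hi, hj, hm, rfl⟩))

theorem val_lt {n i j q : ℕ} (hq : q < n * n) : val n i j q < n * n := by
  unfold val
  split_ifs
  · exact hq
  · have hn : 0 < n := Nat.pos_of_ne_zero fun h => by rw [h] at hq; simp at hq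
    have h1 : q % n < n := Nat.mod_lt _ hn
    have h2 : q / n < n := Nat.div_lt_of_lt_mul hq
    have h3 : (q % n + 1) * n ≤ n * n := Nat.mul_le_mul_right _ h1
    rw [Nat.add_mul, Nat.one_mul] at h3
    omega

theorem src_mem : ((0, 0, 0, 0) : Cr) ∈ (core n κ adj).cs := mem_crs.2 (Or.inl rfl)

theorem snk_mem : ((1, 0, 0, 0) : Cr) ∈ (core n κ adj).cs := mem_crs.2 (Or.inr (Or.inl rfl))

variable {S : Finset (Sym2 (Fin (core n κ adj).mat.length))}

/-- the edge number `q` of a list is deleted -/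
def Dl (S : Finset (Sym2 (Fin (core n κ adj).mat.length))) (k i j q : ℕ) : Prop :=
  Del (core n κ adj) S (k, i, j, q) (k, i, j, q + 1)

section
variable (hS : S.card ≤ (core n κ adj).K)
include hS

theorem path_step {k i j q : ℕ} (hk : k = 2 ∨ k = 3) (hi : i < κ) (hj : j < κ) (hq : q < n * n)
    (hD : ¬ (allow n adj i j q = true ∧ Dl S k i j q)) :
    Rch (core n κ adj) S (k, i, j, q) (k, i, j, q + 1) 2 := by
  have ha := list_mem (adj := adj) hk hi hj hq.le
  have hb := list_mem (adj := adj) hk hi hj (Nat.succ_le_of_lt hq)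
  by_cases h1 : allow n adj i j q = true
  · have h2 : (core n κ adj).soft (k, i, j, q) (k, i, j, q + 1) = 2 := by
      simp only [core, sE]
      rw [if_pos ⟨by omega, trivial, trivial, trivial, trivial, h1⟩]
    have h3 := soft_step (core_ok n κ adj) (S := S) ha hb (by rw [h2]; decide)
      (fun h => hD ⟨h1, h⟩)
    rwa [h2] at h3
  · have h2 : (core n κ adj).hard (k, i, j, q) (k, i, j, q + 1) = 2 := by
      simp only [core, hE]
      rw [if_neg (by omega), if_neg (by omega), if_neg (by omega), if_neg (by omega),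
        if_pos ⟨trivial, trivial, trivial⟩, if_pos trivial, if_neg h1]
    have h3 := (hard_step (core_ok n κ adj) hS ha hb (by rw [h2]; decide)).1
    rwa [h2] at h3

theorem run {k i j : ℕ} (hk : k = 2 ∨ k = 3) (hi : i < κ) (hj : j < κ) (m : ℕ) : ∀ d,
    m + d ≤ n * n → (∀ q, m ≤ q → q < m + d → ¬ (allow n adj i j q = true ∧ Dl S k i j q)) →
    Rch (core n κ adj) S (k, i, j, m) (k, i, j, m + d) (2 * d)
  | 0, hm, _ => Rch.refl (list_mem hk hi hj hm)
  | d + 1, hm, h => by
    have h1 := run hk hi hj m d (by omega) (fun q h1 h2 => h q h1 (by omega))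
    have h2 := path_step hS hk hi hj (q := m + d) (by omega) (h _ (by omega) (by omega))
    have h3 := Rch.trans (core_ok n κ adj) h1 h2
    exact h3

/-- the walk through a list with one deleted edge -/
theorem cross {k i j q : ℕ} (hk : k = 2 ∨ k = 3) (hi : i < κ) (hj : j < κ) (hq : q < n * n)
    (hall : allow n adj i j q = true)
    (h : ∀ q', q' < n * n → q' ≠ q → ¬ (allow n adj i j q' = true ∧ Dl S k i j q')) :
    Rch (core n κ adj) S (k, i, j, 0) (k, i, j, n * n) (3 * (n * n) + 8 + wgt n k i j q) := by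
  have ha := list_mem (adj := adj) hk hi hj hq.le
  have hb := list_mem (adj := adj) hk hi hj (Nat.succ_le_of_lt hq)
  have h1 := run hS hk hi hj 0 q (by omega) (fun q' _ h2 => h q' (by omega) (by omega))
  have h2 : (core n κ adj).hard (k, i, j, q) (k, i, j, q + 1) = n * n + 10 + wgt n k i j q := by
    simp only [core, hE]
    rw [if_neg (by omega), if_neg (by omega), if_neg (by omega), if_neg (by omega),
      if_pos ⟨trivial, trivial, trivial⟩, if_pos trivial, if_pos hall]
  have h3 := (hard_step (core_ok n κ adj) hS ha hb (by rw [h2]; omega)).1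
  rw [h2] at h3
  have h4 := run hS hk hi hj (q + 1) (n * n - (q + 1)) (by omega)
    (fun q' _ h2 => h q' (by omega) (by omega))
  have e1 : q + 1 + (n * n - (q + 1)) = n * n := by omega
  rw [e1] at h4
  rw [Nat.zero_add] at h1
  refine (Rch.trans (core_ok n κ adj) (Rch.trans (core_ok n κ adj) h1 h3) h4).mono ?_
  omega

theorem src2 {i j : ℕ} (hi : i < κ) (hj : j < κ) :
    Rch (core n κ adj) S (0, 0, 0, 0) (2, i, j, 0) 2 := by
  have h2 : (core n κ adj).hard (0, 0, 0, 0) (2, i, j, 0) = 2 := rfl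
  have h3 := (hard_step (core_ok n κ adj) hS src_mem
    (list_mem (adj := adj) (Or.inl rfl) hi hj (Nat.zero_le _)) (by rw [h2]; decide)).1
  rwa [h2] at h3

theorem src3 {i j : ℕ} (hi : i < κ) (hj : j < κ) :
    Rch (core n κ adj) S (0, 0, 0, 0) (3, i, j, 0) (4 * (n * n) + 12) := by
  have h2 : (core n κ adj).hard (0, 0, 0, 0) (3, i, j, 0) = 4 * (n * n) + 12 := rfl
  have h3 := (hard_step (core_ok n κ adj) hS src_mem
    (list_mem (adj := adj) (Or.inr rfl) hi hj (Nat.zero_le _)) (by rw [h2]; omega)).1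
  rwa [h2] at h3

theorem snk2 {i j : ℕ} (hi : i < κ) (hj : j < κ) :
    Rch (core n κ adj) S (2, i, j, n * n) (1, 0, 0, 0) (4 * (n * n) + 12) := by
  have h2 : (core n κ adj).hard (2, i, j, n * n) (1, 0, 0, 0) = 4 * (n * n) + 12 := by
    simp [core, hE]
  have h3 := (hard_step (core_ok n κ adj) hS
    (list_mem (adj := adj) (Or.inl rfl) hi hj le_rfl) snk_mem (by rw [h2]; omega)).1
  rwa [h2] at h3

theorem snk3 {i j : ℕ} (hi : i < κ) (hj : j < κ) :
    Rch (core n κ adj) S (3, i, j, n * n) (1, 0, 0, 0) 2 := by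
  have h2 : (core n κ adj).hard (3, i, j, n * n) (1, 0, 0, 0) = 2 := by
    simp [core, hE]
  have h3 := (hard_step (core_ok n κ adj) hS
    (list_mem (adj := adj) (Or.inr rfl) hi hj le_rfl) snk_mem (by rw [h2]; decide)).1
  rwa [h2] at h3

/-- connectors between the lists `(i, i)` and `(i, j)` of the same kind -/
theorem conn {k i j m : ℕ} (hk : k = 2 ∨ k = 3) (hi : i < κ) (hj : j < κ) (hij : i ≠ j)
    (hm : m ≤ n * n) (hmod : m % n = 0) :
    Rch (core n κ adj) S (k, i, i, m) (k, i, j, m) (n * n + 2) ∧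
      Rch (core n κ adj) S (k, i, j, m) (k, i, i, m) (n * n + 2) := by
  have h2 : (core n κ adj).hard (k, i, i, m) (k, i, j, m) = n * n + 2 := by
    simp only [core, hE]
    rw [if_neg (by omega), if_neg (by omega), if_neg (by omega), if_neg (by omega),
      if_neg (fun h => hij h.2.2), if_pos ⟨trivial, trivial, trivial, trivial, hmod⟩]
  have h3 := hard_step (core_ok n κ adj) hS
    (list_mem (adj := adj) hk hi hi hm) (list_mem (adj := adj) hk hi hj hm) (by rw [h2]; omega)
  rwa [h2] at h3

/-- connectors between the two lists of the same indices -/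
theorem conn' {i j m : ℕ} (hi : i < κ) (hj : j < κ) (hm : m ≤ n * n) :
    Rch (core n κ adj) S (2, i, j, m) (3, i, j, m) (4 * (n * n) + 10) := by
  have h2 : (core n κ adj).hard (2, i, j, m) (3, i, j, m) = 4 * (n * n) + 10 := by
    simp [core, hE]
  have h3 := (hard_step (core_ok n κ adj) hS
    (list_mem (adj := adj) (Or.inl rfl) hi hj hm) (list_mem (adj := adj) (Or.inr rfl) hi hj hm)
    (by rw [h2]; omega)).1
  rwa [h2] at h3

/-- sum connectors -/
theorem sumc {i j i' j' : ℕ} (hi : i < κ) (hj : j < κ) (hn : 0 < n * n)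
    (hor : (i = i' ∧ j = j') ∨ (i = j' ∧ j = i')) :
    Rch (core n κ adj) S (2, i, j, n * n) (3, i', j', 0) 2 := by
  have h2 : (core n κ adj).hard (2, i, j, n * n) (3, i', j', 0) = 2 := by
    simp only [core, hE]
    rw [if_neg (by omega), if_neg (by omega), if_neg (by omega), if_neg (by omega),
      if_neg (by omega), if_neg (by omega), if_neg (by omega),
      if_pos ⟨trivial, trivial, trivial, trivial, hor⟩]
  have hi' : i' < κ := by omega
  have hj' : j' < κ := by omega
  have h3 := (hard_step (core_ok n κ adj) hS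
    (list_mem (adj := adj) (Or.inl rfl) hi hj le_rfl)
    (list_mem (adj := adj) (Or.inr rfl) hi' hj' (Nat.zero_le _)) (by rw [h2]; decide)).1
  rwa [h2] at h3

end

/-- the soundness of the reduction -/
theorem sound_core (n κ : ℕ) (adj : ℕ → ℕ → Bool)
    (hI : SPMVE ((core n κ adj).mat, (0, 1), ((core n κ adj).K, bnd n))) :
    ∃ z : ℕ → ℕ, (∀ i < κ, z i < n) ∧ ∀ i < κ, ∀ j < κ, i < j → adj (z i) (z j) = true := by
  classical
  obtain ⟨S, hS, hlow⟩ := (core n κ adj).sound (core_ok n κ adj) (0, 0, 0, 0) (1, 0, 0, 0) _ rfl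
    (bnd n) hI
  have hok := core_ok n κ adj
  unfold bnd at hlow
  -- ends of the lists
  let al : ℕ → ℕ := fun k => if k = 2 then 2 else 4 * (n * n) + 12
  let be : ℕ → ℕ := fun k => if k = 2 then 4 * (n * n) + 12 else 2
  have hsrc : ∀ k i j, (k = 2 ∨ k = 3) → i < κ → j < κ →
      Rch (core n κ adj) S (0, 0, 0, 0) (k, i, j, 0) (al k) := by
    rintro k i j (rfl | rfl) hi hj
    · exact src2 hS hi hj
    · exact src3 hS hi hj
  have hsnk : ∀ k i j, (k = 2 ∨ k = 3) → i < κ → j < κ →
      Rch (core n κ adj) S (k, i, j, n * n) (1, 0, 0, 0) (be k) := by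
    rintro k i j (rfl | rfl) hi hj
    · exact snk2 hS hi hj
    · exact snk3 hS hi hj
  have hab : ∀ k, (k = 2 ∨ k = 3) → al k + be k = 4 * (n * n) + 14 := by
    rintro k (rfl | rfl) <;> simp only [al, be] <;> norm_num <;> omega
  -- every list has a deleted edge
  have hex : ∀ k i j, (k = 2 ∨ k = 3) → i < κ → j < κ →
      ∃ q, q < n * n ∧ allow n adj i j q = true ∧ Dl S k i j q := by
    intro k i j hk hi hj
    by_contra hcon
    push Not at hcon
    have h1 := run hS hk hi hj 0 (n * n) (by omega) (fun q _ h2 => fun h3 =>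
      hcon q (by omega) h3.1 h3.2)
    rw [Nat.zero_add] at h1
    have h2 := hlow _ (((hsrc k i j hk hi hj).trans hok h1).trans hok (hsnk k i j hk hi hj))
    have h3 := hab k hk
    omega
  choose! q hq hall hdel using hex
  -- there are no other deleted edges
  have huniq : ∀ k i j q', (k = 2 ∨ k = 3) → i < κ → j < κ → q' < n * n → Dl S k i j q' →
      q' = q k i j := by
    have hpair : ∀ k i j q', (k = 2 ∨ k = 3) → i < κ → j < κ → q' < n * n → Dl S k i j q' →
        ∃ u v : Fin (core n κ adj).mat.length, (core n κ adj).nm u = Sum.inl (k, i, j, q') ∧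
        (core n κ adj).nm v = Sum.inl (k, i, j, q' + 1) ∧ s(u, v) ∈ S :=
      fun k i j q' _ _ _ _ h => h
    let Λ := (range 2) ×ˢ (range κ ×ˢ range κ)
    have hne : ∀ x ∈ Λ, ∃ u v : Fin (core n κ adj).mat.length,
        (core n κ adj).nm u = Sum.inl (x.1 + 2, x.2.1, x.2.2, q (x.1 + 2) x.2.1 x.2.2) ∧
        (core n κ adj).nm v = Sum.inl (x.1 + 2, x.2.1, x.2.2, q (x.1 + 2) x.2.1 x.2.2 + 1) ∧
        s(u, v) ∈ S := by
      rintro ⟨k, i, j⟩ hx
      simp only [Λ, mem_product, mem_range] at hx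
      exact hdel (k + 2) i j (by omega) hx.2.1 hx.2.2
    intro k i j q' hk hi hj hq' hD
    obtain ⟨u, v, hu, hv, huv⟩ := hD
    haveI : Nonempty (Fin (core n κ adj).mat.length) := ⟨u⟩
    choose! fu fv hfu hfv hfs using hne
    let f : ℕ × ℕ × ℕ → Sym2 (Fin (core n κ adj).mat.length) := fun x => s(fu x, fv x)
    have hinj : Set.InjOn f (Λ : Set (ℕ × ℕ × ℕ)) := by
      rintro ⟨k1, i1, j1⟩ hx1 ⟨k2, i2, j2⟩ hx2 hxx
      have a1 := hfu _ hx1
      have a2 := hfu _ hx2
      have b1 := hfv _ hx1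
      have b2 := hfv _ hx2
      simp only [f] at hxx
      rw [Sym2.eq_iff] at hxx
      rcases hxx with ⟨h1, h2⟩ | ⟨h1, h2⟩
      · rw [h1, a2] at a1
        simp only [Sum.inl.injEq, Prod.mk.injEq] at a1
        simp only [Prod.mk.injEq]
        omega
      · rw [h1, b2] at a1
        rw [h2, a2] at b1
        simp only [Sum.inl.injEq, Prod.mk.injEq] at a1 b1
        simp only [Prod.mk.injEq]
        omega
    have himg : Λ.image f = S := by
      refine Finset.eq_of_subset_of_card_le ?_ ?_
      · intro e he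
        obtain ⟨x, hx, rfl⟩ := Finset.mem_image.1 he
        exact hfs x hx
      · rw [Finset.card_image_of_injOn hinj]
        refine hS.trans ?_
        simp [Λ, core]
    rw [← himg] at huv
    obtain ⟨⟨k1, i1, j1⟩, hx1, hxx⟩ := Finset.mem_image.1 huv
    have a1 := hfu _ hx1
    have b1 := hfv _ hx1
    simp only [f] at hxx
    rw [Sym2.eq_iff] at hxx
    rcases hxx with ⟨h1, h2⟩ | ⟨h1, h2⟩
    · rw [h1, hu] at a1
      simp only [Sum.inl.injEq, Prod.mk.injEq] at a1
      obtain ⟨rfl, rfl, rfl, h3⟩ := a1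
      exact h3
    · rw [h1, hv] at a1
      rw [h2, hu] at b1
      simp only [Sum.inl.injEq, Prod.mk.injEq] at a1 b1
      omega
  -- the pieces of a list before and after the deleted edge
  have hbefore : ∀ k i j m, (k = 2 ∨ k = 3) → i < κ → j < κ → m ≤ q k i j →
      Rch (core n κ adj) S (0, 0, 0, 0) (k, i, j, m) (al k + 2 * m) := by
    intro k i j m hk hi hj hm
    have h0 := hq k i j hk hi hj
    have h1 := run hS hk hi hj 0 m (by omega) (fun q' _ h2 h3 => by
      have := huniq k i j q' hk hi hj (by omega) h3.2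
      omega)
    rw [Nat.zero_add] at h1
    exact (hsrc k i j hk hi hj).trans hok h1
  have hafter : ∀ k i j m, (k = 2 ∨ k = 3) → i < κ → j < κ → q k i j < m → m ≤ n * n →
      Rch (core n κ adj) S (k, i, j, m) (1, 0, 0, 0) (2 * (n * n - m) + be k) := by
    intro k i j m hk hi hj hm hm'
    have h0 := hq k i j hk hi hj
    have h1 := run hS hk hi hj m (n * n - m) (by omega) (fun q' _ h2 h3 => by
      have := huniq k i j q' hk hi hj (by omega) h3.2
      omega)
    have e1 : m + (n * n - m) = n * n := by omega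
    rw [e1] at h1
    exact h1.trans hok (hsnk k i j hk hi hj)
  -- connectors between the lists `(i, i)` and `(i, j)`
  have hdiv : ∀ k i j, (k = 2 ∨ k = 3) → i < κ → j < κ →
      q k i j / n = q k i i / n := by
    intro k i j hk hi hj
    by_cases hij : i = j
    · rw [hij]
    have q1 := hq k i j hk hi hj
    have q2 := hq k i i hk hi hi
    have hn : 0 < n := Nat.pos_of_ne_zero fun h => by rw [h] at q1; simp at q1
    have hk2 := hab k hk
    rcases Nat.lt_trichotomy (q k i j / n) (q k i i / n) with h | h | h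
    · exfalso
      have h1 : q k i i / n * n ≤ q k i i := Nat.div_mul_le_self _ _
      have h2 : q k i j < q k i i / n * n := (Nat.div_lt_iff_lt_mul hn).1 h
      have h3 := (hbefore k i i _ hk hi hi h1).trans hok ((conn hS hk hi hj hij
        (m := q k i i / n * n) (by omega) (Nat.mul_mod_left _ _)).1.trans hok
        (hafter k i j _ hk hi hj h2 (by omega)))
      have h4 := hlow _ h3
      omega
    · exact h
    · exfalso
      have h1 : q k i j / n * n ≤ q k i j := Nat.div_mul_le_self _ _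
      have h2 : q k i i < q k i j / n * n := (Nat.div_lt_iff_lt_mul hn).1 h
      have h3 := (hbefore k i j _ hk hi hj h1).trans hok ((conn hS hk hi hj hij
        (m := q k i j / n * n) (by omega) (Nat.mul_mod_left _ _)).2.trans hok
        (hafter k i i _ hk hi hi h2 (by omega)))
      have h4 := hlow _ h3
      omega
  -- connectors between the two lists `(i, j)`
  have hle : ∀ i j, i < κ → j < κ → q 2 i j ≤ q 3 i j := by
    intro i j hi hj
    by_contra hlt
    push Not at hlt
    have q1 := hq 2 i j (Or.inl rfl) hi hj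
    have h3 := (hbefore 2 i j _ (Or.inl rfl) hi hj le_rfl).trans hok ((conn' hS hi hj
        (m := q 2 i j) (by omega)).trans hok (hafter 3 i j _ (Or.inr rfl) hi hj hlt (by omega)))
    have h4 := hlow _ h3
    have e1 : al 2 = 2 := rfl
    have e2 : be 3 = 2 := rfl
    omega
  -- sum routes
  have hsum : ∀ i j i' j', i < κ → j < κ → ((i = i' ∧ j = j') ∨ (i = j' ∧ j = i')) →
      val n i' j' (q 3 i' j') ≤ val n i j (q 2 i j) := by
    intro i j i' j' hi hj hor
    have hi' : i' < κ := by omega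
    have hj' : j' < κ := by omega
    have q1 := hq 2 i j (Or.inl rfl) hi hj
    have q2 := hq 3 i' j' (Or.inr rfl) hi' hj'
    have c1 := cross hS (Or.inl rfl) hi hj q1 (hall 2 i j (Or.inl rfl) hi hj)
      (fun q' h1 h2 h3 => h2 (huniq 2 i j q' (Or.inl rfl) hi hj h1 h3.2))
    have c2 := cross hS (Or.inr rfl) hi' hj' q2 (hall 3 i' j' (Or.inr rfl) hi' hj')
      (fun q' h1 h2 h3 => h2 (huniq 3 i' j' q' (Or.inr rfl) hi' hj' h1 h3.2))
    have c3 := (src2 hS hi hj).trans hok (c1.trans hok ((sumc hS hi hj (by omega) hor).trans hok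
      (c2.trans hok (snk3 hS hi' hj'))))
    have h4 := hlow _ c3
    unfold wgt at h4
    rw [if_pos rfl, if_neg (by decide)] at h4
    have h5 := val_lt (i := i') (j := j') q2
    omega
  -- the clique
  have hnpos : ∀ i < κ, 0 < n := by
    intro i hi
    have q1 := hq 2 i i (Or.inl rfl) hi hi
    exact Nat.pos_of_ne_zero fun h => by rw [h] at q1; simp at q1
  refine ⟨fun i => q 2 i i / n, ?_, ?_⟩
  · intro i hi
    exact Nat.div_lt_of_lt_mul (hq 2 i i (Or.inl rfl) hi hi)
  · intro i hi j hj hij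
    have hn := hnpos i hi
    have hself : ∀ i < κ, q 2 i i = q 3 i i := by
      intro i hi
      have h1 := hle i i hi hi
      have h2 := hsum i i i i hi hi (Or.inl ⟨rfl, rfl⟩)
      unfold val at h2
      rw [if_pos le_rfl, if_pos le_rfl] at h2
      omega
    -- the four lists
    have d1 := hdiv 2 i j (Or.inl rfl) hi hj
    have d2 := hdiv 3 i j (Or.inr rfl) hi hj
    have d3 := hdiv 2 j i (Or.inl rfl) hj hi
    have d4 := hdiv 3 j i (Or.inr rfl) hj hi
    rw [← hself i hi] at d2
    rw [← hself j hj] at d4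
    have l1 := hle i j hi hj
    have l2 := hle j i hj hi
    have s1 := hsum i j i j hi hj (Or.inl ⟨rfl, rfl⟩)
    have s2 := hsum i j j i hi hj (Or.inr ⟨rfl, rfl⟩)
    have s3 := hsum j i i j hj hi (Or.inr ⟨rfl, rfl⟩)
    unfold val at s1 s2 s3
    rw [if_pos hij.le] at s1 s2 s3
    rw [if_pos hij.le] at s1
    rw [if_neg (by omega)] at s2 s3
    have eP : q 2 i j = q 3 i j := by omega
    have hallP := hall 2 i j (Or.inl rfl) hi hj
    unfold allow at hallP
    rw [Bool.or_eq_true, decide_eq_true_eq] at hallP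
    have hadj := hallP.resolve_left (by omega)
    rw [d1] at hadj
    -- `q 2 i j % n = q 2 j j / n`
    have m1 := Nat.div_add_mod (q 2 i j) n
    have m3 := Nat.div_add_mod (q 2 j i) n
    have m4 := Nat.div_add_mod (q 3 j i) n
    have r1 : q 2 i j % n < n := Nat.mod_lt _ hn
    have hz : q 2 j j / n < n := Nat.div_lt_of_lt_mul (hq 2 j j (Or.inl rfl) hj hj)
    rw [d1] at m1
    rw [d3] at m3 s3
    rw [d4] at m4 s2
    rw [← eP] at s3
    have key : q 2 i j % n = q 2 j j / n := by
      -- `s2 : (q 3 j i % n) * n + q 2 j j / n ≤ q 2 i j`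
      -- `s3 : q 2 i j ≤ (q 2 j i % n) * n + q 2 j j / n`
      have e1 : q 2 j i % n ≤ q 3 j i % n := by omega
      have e2 : q 2 j i % n * n ≤ q 3 j i % n * n := Nat.mul_le_mul_right _ e1
      have e3 : q 2 i j = q 2 j i % n * n + q 2 j j / n := by omega
      rw [e3, Nat.add_comm, Nat.add_mul_mod_self_right, Nat.mod_eq_of_lt hz]
    rw [key] at hadj
    exact hadj

/-- the equivalence -/
theorem main (n κ : ℕ) (adj : ℕ → ℕ → Bool) (hs : ∀ u v, adj u v = adj v u) :
    SPMVE ((core n κ adj).mat, (0, 1), ((core n κ adj).K, bnd n)) ↔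
    ∃ z : ℕ → ℕ, (∀ i < κ, z i < n) ∧ ∀ i < κ, ∀ j < κ, i < j → adj (z i) (z j) = true := by
  refine ⟨sound_core n κ adj, ?_⟩
  rintro ⟨z, hz, hadj⟩
  refine complete_core n κ adj z hz fun i hi j hj hij => ?_
  rcases Nat.lt_or_gt_of_ne hij with h | h
  · exact hadj i hi j hj h
  · rw [hs]
    exact hadj j hj i hi h

end Pool.Agent.V11225.MV
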